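import Pool.Agent.BSH.Stmts

/-!
# BSH, row HIL (helper98)
-/

set_option autoImplicit false

namespace Pool.Agent.BSH.H98

open Pool.Agent.BSH

variable {E A : Type} [Field E] [CommRing A] [Algebra E A]

theorem fin_pow {W : Submodule E A} (hW : Module.Finite E W) (n : ℕ) :
    Module.Finite E (W ^ n : Submodule E A) := by
  rw [Module.Finite.iff_fg] at hW ⊢
  exact hW.pow n

theorem span_mul_eq (g : A) (V : Submodule E A) :
    Submodule.span E {g} * V = V.map (LinearMap.mulLeft E g) := by
  ext x
  rw [Submodule.mem_span_singleton_mul, Submodule.mem_map]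
  rfl

theorem fr_span_mul [IsDomain A] {g : A} (hg : g ≠ 0) (V : Submodule E A) :
    Module.finrank E (Submodule.span E {g} * V : Submodule E A) = Module.finrank E V := by
  rw [span_mul_eq]
  have hinj : Function.Injective (LinearMap.mulLeft E g) := by
    intro a b hab
    exact mul_left_cancel₀ hg hab
  exact LinearEquiv.finrank_eq (Submodule.equivMapOfInjective _ hinj V).symm

theorem pow_succ_le (W G : Submodule E A) (D : ℕ) :
    (W ⊔ G) ^ (D + 1) ≤ W ^ (D + 1) ⊔ G * (W ⊔ G) ^ D := by
  induction D with
  | zero =>
    simp only [zero_add, pow_one, pow_zero, mul_one]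
    exact le_rfl
  | succ D ih =>
    have h1 : (W ⊔ G) ^ (D + 1 + 1) = W * (W ⊔ G) ^ (D + 1) ⊔ G * (W ⊔ G) ^ (D + 1) := by
      rw [pow_succ', Submodule.sup_mul]
    rw [h1]
    refine sup_le ?_ le_sup_right
    refine (mul_le_mul' le_rfl ih).trans ?_
    rw [Submodule.mul_sup]
    refine sup_le ?_ ?_
    · rw [← pow_succ']
      exact le_sup_left
    · refine le_trans ?_ le_sup_right
      rw [← mul_assoc, mul_comm W G, mul_assoc, pow_succ' (W ⊔ G) D]
      exact mul_le_mul' le_rfl (mul_le_mul' le_sup_left le_rfl)

theorem hil : HilStmt := by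
  intro E A _ _ _ _ W g δ D hW h1W hδ hgD
  set W' : Submodule E A := W ⊔ Submodule.span E {g} with hW'
  by_cases hg : g = 0
  · have h1 : W' = W := by
      rw [hW', hg, Submodule.span_zero_singleton, sup_bot_eq]
    rw [h1]
    have h2 : Module.finrank E (W ^ D : Submodule E A) =
        if 0 ≤ D then Module.finrank E (W ^ (D - 0) : Submodule E A) else 0 := by simp
    rw [h2]
    exact Finset.single_le_sum (f := fun i => if i ≤ D then
      Module.finrank E (W ^ (D - i) : Submodule E A) else 0) (fun i _ => Nat.zero_le _)
      (Finset.mem_range.mpr hδ)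
  have hfgW' : Module.Finite E W' := by
    rw [Module.Finite.iff_fg] at hW ⊢
    exact hW.sup (Submodule.fg_span_singleton g)
  have hWle : W ≤ W' := le_sup_left
  -- the numbers
  set f : ℕ → ℕ := fun n => Module.finrank E (W ^ n : Submodule E A) with hf
  have key : ∀ n : ℕ, (g ∈ W ^ δ ∨ n < δ) →
      Module.finrank E (W' ^ n : Submodule E A) ≤
        ∑ i ∈ Finset.range δ, if i ≤ n then f (n - i) else 0 := by
    intro n
    induction n with
    | zero =>
      intro _
      have h2 : Module.finrank E (W' ^ 0 : Submodule E A) =
          if 0 ≤ 0 then f (0 - 0) else 0 := by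
        rw [if_pos le_rfl]
        show Module.finrank E (W' ^ 0 : Submodule E A) = Module.finrank E (W ^ 0 : Submodule E A)
        rw [pow_zero, pow_zero]
      rw [h2]
      exact Finset.single_le_sum (f := fun i => if i ≤ 0 then f (0 - i) else 0)
        (fun i _ => Nat.zero_le _) (Finset.mem_range.mpr hδ)
    | succ n ih =>
      intro hn
      have ih' := ih (hn.imp_right (fun h => by omega))
      have : Module.Finite E (W ^ (n + 1) : Submodule E A) := fin_pow hW _
      have hf1 : Module.Finite E (W' ^ n : Submodule E A) := fin_pow hfgW' _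
      have hf2 : Module.Finite E (Submodule.span E {g} * W' ^ n : Submodule E A) := by
        rw [Module.Finite.iff_fg] at hf1 ⊢
        exact (Submodule.fg_span_singleton g).mul hf1
      have h3 := Submodule.finrank_sup_add_finrank_inf_eq (W ^ (n + 1))
        (Submodule.span E {g} * W' ^ n)
      have h4 : Module.finrank E (W' ^ (n + 1) : Submodule E A) ≤
          Module.finrank E (W ^ (n + 1) ⊔ Submodule.span E {g} * W' ^ n : Submodule E A) :=
        Submodule.finrank_mono (pow_succ_le W (Submodule.span E {g}) n)
      rw [fr_span_mul hg] at h3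
      by_cases hc : n + 1 < δ
      · have h5 : ∑ i ∈ Finset.range δ, (if i ≤ n + 1 then f (n + 1 - i) else 0) =
            f (n + 1) + ∑ i ∈ Finset.range δ, (if i ≤ n then f (n - i) else 0) := by
          obtain ⟨d, rfl⟩ : ∃ d, δ = d + 1 := ⟨δ - 1, by omega⟩
          rw [Finset.sum_range_succ' (fun i => if i ≤ n + 1 then f (n + 1 - i) else 0),
            Finset.sum_range_succ (fun i => if i ≤ n then f (n - i) else 0)]
          rw [if_neg (by omega : ¬ d ≤ n), if_pos (Nat.zero_le _), add_zero, Nat.sub_zero, add_comm]
          congr 1
          refine Finset.sum_congr rfl fun i _ => ?_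
          by_cases hi : i ≤ n
          · rw [if_pos hi, if_pos (by omega : i + 1 ≤ n + 1)]
            congr 1
            omega
          · rw [if_neg hi, if_neg (by omega : ¬ i + 1 ≤ n + 1)]
        rw [h5]
        have h6 : f (n + 1) = Module.finrank E (W ^ (n + 1) : Submodule E A) := rfl
        omega
      · have hgW : g ∈ W ^ δ := hn.resolve_right hc
        have hle : Submodule.span E {g} * W ^ (n + 1 - δ) ≤
            W ^ (n + 1) ⊓ (Submodule.span E {g} * W' ^ n) := by
          refine le_inf ?_ ?_
          · have h7 : W ^ (n + 1) = W ^ δ * W ^ (n + 1 - δ) := by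
              rw [← pow_add]
              congr 1
              omega
            rw [h7]
            refine mul_le_mul' ?_ le_rfl
            rw [Submodule.span_singleton_le_iff_mem]
            exact hgW
          · refine mul_le_mul' le_rfl ?_
            have h8 : (1 : Submodule E A) ≤ W' := by
              rw [Submodule.one_le]
              exact hWle h1W
            refine le_trans (pow_le_pow_left' hWle _) ?_
            exact pow_le_pow_right' h8 (by omega)
        have : Module.Finite E (W ^ (n + 1) ⊓ (Submodule.span E {g} * W' ^ n) :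
            Submodule E A) := inferInstance
        have h9 := Submodule.finrank_mono hle
        rw [fr_span_mul hg] at h9
        have h5 : ∑ i ∈ Finset.range δ, (if i ≤ n + 1 then f (n + 1 - i) else 0) + f (n + 1 - δ) =
            f (n + 1) + ∑ i ∈ Finset.range δ, (if i ≤ n then f (n - i) else 0) := by
          obtain ⟨d, rfl⟩ : ∃ d, δ = d + 1 := ⟨δ - 1, by omega⟩
          rw [Finset.sum_range_succ' (fun i => if i ≤ n + 1 then f (n + 1 - i) else 0),
            Finset.sum_range_succ (fun i => if i ≤ n then f (n - i) else 0)]
          rw [if_pos (by omega : d ≤ n), if_pos (Nat.zero_le _), Nat.sub_zero]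
          have h10 : n + 1 - (d + 1) = n - d := by omega
          rw [h10]
          have h11 : ∑ i ∈ Finset.range d, (if i + 1 ≤ n + 1 then f (n + 1 - (i + 1)) else 0) =
              ∑ i ∈ Finset.range d, (if i ≤ n then f (n - i) else 0) := by
            refine Finset.sum_congr rfl fun i _ => ?_
            by_cases hi : i ≤ n
            · rw [if_pos hi, if_pos (by omega : i + 1 ≤ n + 1)]
              congr 1
              omega
            · rw [if_neg hi, if_neg (by omega : ¬ i + 1 ≤ n + 1)]
          rw [h11]
          omega
        have h6 : f (n + 1) = Module.finrank E (W ^ (n + 1) : Submodule E A) := rfl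
        have h12 : f (n + 1 - δ) = Module.finrank E (W ^ (n + 1 - δ) : Submodule E A) := rfl
        omega
  exact key D hgD

end Pool.Agent.BSH.H98
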